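import Mathlib
import Pool.Agent.Helper92.PO.Stmts

/-!
# Injectivity of the encodings
-/

set_option autoImplicit false

namespace Pool.Agent.Helper92.PO

open Pool.Agent.Helper52.Poly Function

theorem pinj_bool : Injective (enc : Bool → T) := by
  intro a b h
  cases a <;> cases b
  · rfl
  · exact T.noConfusion h
  · exact T.noConfusion h
  · rfl

theorem pinj_prod {α β : Type} [Enc α] [Enc β] (ha : Injective (enc : α → T))
    (hb : Injective (enc : β → T)) : Injective (enc : α × β → T) := by
  rintro ⟨a, b⟩ ⟨a', b'⟩ h
  have h' : T.node (enc a) (enc b) = T.node (enc a') (enc b') := h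
  injection h' with h1 h2
  rw [ha h1, hb h2]

theorem pinj_list {α : Type} [Enc α] (ha : Injective (enc : α → T)) :
    Injective (enc : List α → T) := by
  intro l
  induction l with
  | nil =>
    intro l' h
    cases l' with
    | nil => rfl
    | cons a l =>
      have h' : T.leaf = T.node (enc a) (encList l) := h
      exact T.noConfusion h'
  | cons a l ih =>
    intro l' h
    cases l' with
    | nil =>
      have h' : T.node (enc a) (encList l) = T.leaf := h
      exact T.noConfusion h'
    | cons a' l' =>
      have h' : T.node (enc a) (encList l) = T.node (enc a') (encList l') := h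
      injection h' with h1 h2
      rw [ha h1, ih (a₂ := l') h2]

theorem pinj_bits : Injective Nat.bits := by
  intro a
  induction a using Nat.binaryRec' with
  | zero =>
    intro b h
    induction b using Nat.binaryRec' with
    | zero => rfl
    | bit c n hn _ =>
      rw [Nat.bits_append_bit n c hn, Nat.zero_bits] at h
      exact absurd h (by simp)
  | bit c n hn ih =>
    intro b h
    induction b using Nat.binaryRec' with
    | zero =>
      rw [Nat.bits_append_bit n c hn, Nat.zero_bits] at h
      exact absurd h (by simp)
    | bit c' n' hn' _ =>
      rw [Nat.bits_append_bit n c hn, Nat.bits_append_bit n' c' hn'] at h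
      injection h with h1 h2
      rw [h1, ih h2]

theorem pinj_nat : Injective (enc : ℕ → T) := by
  intro a b h
  have h' : (enc a.bits : T) = enc b.bits := h
  exact pinj_bits (pinj_list pinj_bool h')

/-- Injectivity of the encodings. -/
theorem st_PINJ : ST_PINJ := by
  have h1 : Injective (enc : Lab → T) := pinj_prod pinj_nat pinj_nat
  exact ⟨h1, pinj_prod h1 (pinj_list (pinj_prod h1 pinj_nat))⟩

end Pool.Agent.Helper92.PO
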